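import Pool.Agent.H85.SpForm

set_option autoImplicit false

namespace Pool.Agent.Results.MP_add580_gt.Dim17

open MvPolynomial

/-- Two finite subgroups of `O(18)` acting freely on `S¹⁷`, not isomorphic as abstract groups,
whose invariant harmonic homogeneous polynomials have the same dimension in every degree. -/
theorem result : ∃ n : ℕ, n % 4 = 1 ∧
    ∃ Γ₁ Γ₂ : Subgroup (Matrix.orthogonalGroup (Fin (n + 1)) ℝ), Finite Γ₁ ∧ Finite Γ₂ ∧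
    (∀ g ∈ Γ₁, ∀ v : Fin (n + 1) → ℝ, g.1.mulVec v = v → g = 1 ∨ v = 0) ∧
    (∀ g ∈ Γ₂, ∀ v : Fin (n + 1) → ℝ, g.1.mulVec v = v → g = 1 ∨ v = 0) ∧
    (∀ k : ℕ,
      Module.finrank ℝ ↥(homogeneousSubmodule (Fin (n + 1)) ℝ k ⊓
        LinearMap.ker (∑ i : Fin (n + 1), (pderiv i).toLinearMap ∘ₗ (pderiv i).toLinearMap) ⊓
        ⨅ g ∈ Γ₁, LinearMap.ker ((aeval fun i : Fin (n + 1) =>
          ∑ j : Fin (n + 1), C (g.1 i j) * X j).toLinearMap - LinearMap.id)) =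
      Module.finrank ℝ ↥(homogeneousSubmodule (Fin (n + 1)) ℝ k ⊓
        LinearMap.ker (∑ i : Fin (n + 1), (pderiv i).toLinearMap ∘ₗ (pderiv i).toLinearMap) ⊓
        ⨅ g ∈ Γ₂, LinearMap.ker ((aeval fun i : Fin (n + 1) =>
          ∑ j : Fin (n + 1), C (g.1 i j) * X j).toLinearMap - LinearMap.id))) ∧
    IsEmpty (Γ₁ ≃* Γ₂) :=
  ⟨17, rfl, Pool.Agent.H85.SpForm.Γ 1, Pool.Agent.H85.SpForm.Γ 2,
    Finite.of_equiv _ (Pool.Agent.H85.SpForm.eq 1), Finite.of_equiv _ (Pool.Agent.H85.SpForm.eq 2),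
    Pool.Agent.H85.SpForm.free (Or.inl rfl), Pool.Agent.H85.SpForm.free (Or.inr rfl),
    Pool.Agent.H85.SpForm.iso, Pool.Agent.H85.SpForm.noniso⟩

end Pool.Agent.Results.MP_add580_gt.Dim17
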